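import Mathlib

/-!
# MP_1f00fa_co: no circulant graph of order 15 has `mp = 2` and diameter 2
-/

namespace Pool.Agent.Results.MP_1f00fa_co.Fifteen

open SimpleGraph

/-- No three distinct vertices of `S` lie on a common induced path of `G`; an induced path is an
induced copy of `pathGraph k`. -/
def IsMonoPos {V : Type} (G : SimpleGraph V) (S : Finset V) : Prop :=
  ∀ (k : ℕ) (f : pathGraph k ↪g G) (i j l : Fin k), i ≠ j → i ≠ l → j ≠ l →
    ¬ (f i ∈ S ∧ f j ∈ S ∧ f l ∈ S)

/-- The monophonic position number. -/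
noncomputable def mp {V : Type} (G : SimpleGraph V) : ℕ :=
  sSup {m | ∃ S : Finset V, IsMonoPos G S ∧ S.card = m}

theorem le_mp {V : Type} [Fintype V] (G : SimpleGraph V) (S : Finset V) (h : IsMonoPos G S) :
    S.card ≤ mp G :=
  le_csSup ⟨Fintype.card V, fun _ ⟨T, _, e⟩ => e ▸ T.card_le_univ⟩ ⟨S, h, rfl⟩

theorem clique_pos {V : Type} (G : SimpleGraph V) (S : Finset V) (h : G.IsClique S) :
    IsMonoPos G S := by
  rintro k f i j l h1 h2 h3 ⟨hi, hj, hl⟩
  have a1 := pathGraph_adj.1 (f.map_rel_iff.1 (h hi hj (f.injective.ne h1)))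
  have a2 := pathGraph_adj.1 (f.map_rel_iff.1 (h hi hl (f.injective.ne h2)))
  have a3 := pathGraph_adj.1 (f.map_rel_iff.1 (h hj hl (f.injective.ne h3)))
  omega

theorem twin_pos {V : Type} (G : SimpleGraph V) (S : Finset V)
    (h : ∀ a ∈ S, ∀ b ∈ S, ∀ w, G.Adj a w → G.Adj b w) : IsMonoPos G S := by
  rintro k f i j l h1 h2 h3 ⟨hi, hj, hl⟩
  obtain ⟨m, hm⟩ : ∃ m, (pathGraph k).Adj i m := by
    by_cases e : i.val + 1 < k
    · exact ⟨⟨i.val + 1, e⟩, pathGraph_adj.2 (Or.inl rfl)⟩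
    · exact ⟨⟨i.val - 1, by omega⟩, pathGraph_adj.2 (Or.inr (by simp only; omega))⟩
  have a1 := pathGraph_adj.1 hm
  have a2 := pathGraph_adj.1 (f.map_rel_iff.1 (h _ hi _ hj _ (f.map_rel_iff.2 hm)))
  have a3 := pathGraph_adj.1 (f.map_rel_iff.1 (h _ hi _ hl _ (f.map_rel_iff.2 hm)))
  omega

def vec (b1 b2 b3 b4 b5 b6 b7 : Bool) : ZMod 15 → Bool :=
  (![false, b1, b2, b3, b4, b5, b6, b7, b7, b6, b5, b4, b3, b2, b1] : Fin 15 → Bool)

theorem key : ∀ b1 b2 b3 b4 b5 b6 b7 : Bool, ∀ c, c = vec b1 b2 b3 b4 b5 b6 b7 →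
    (∀ x, x = 0 ∨ c x = true ∨ ∃ y, c y = true ∧ c (x - y) = true) →
    (∃ x y, c x = true ∧ c y = true ∧ c (y - x) = true) ∨ ∀ x, c (x - 5) = c x := by
  rintro b1 b2 b3 b4 b5 b6 b7 c rfl
  revert b1 b2 b3 b4 b5 b6 b7
  decide +kernel

/-- No circulant graph of order 15 has monophonic position number two and diameter two. -/
theorem result (C : Set (ZMod 15)) :
    ¬ (mp (circulantGraph C) = 2 ∧ (circulantGraph C).diam = 2) := by
  classical
  rintro ⟨hm, hd⟩
  set G := circulantGraph C with hG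
  let c : ZMod 15 → Bool := fun x => decide (G.Adj 0 x)
  have hc : ∀ u v, G.Adj u v ↔ c (v - u) = true := fun u v => by
    simp only [c, decide_eq_true_eq, hG, circulantGraph_adj, zero_sub, neg_sub, sub_zero, ne_eq,
      eq_comm (a := (0 : ZMod 15)), sub_eq_zero, eq_comm (a := u)]
  have hn : ∀ x, c (-x) = c x := fun x => by
    have := (hc x 0).symm.trans ((G.adj_comm x 0).trans (hc 0 x))
    rw [zero_sub, sub_zero] at this
    exact Bool.eq_iff_iff.2 this
  have hv : c = vec (c 1) (c 2) (c 3) (c 4) (c 5) (c 6) (c 7) := by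
    funext x
    fin_cases x
    · exact decide_eq_false (G.loopless.1 0)
    iterate 7 rfl
    exacts [hn 7, hn 6, hn 5, hn 4, hn 3, hn 2, hn 1]
  have htop : G.ediam ≠ ⊤ := ediam_ne_top_of_diam_ne_zero (by omega)
  rcases key _ _ _ _ _ _ _ c hv (fun x => by
    have h2 : G.dist 0 x ≤ 2 := hd ▸ dist_le_diam htop
    obtain ⟨p, hp⟩ := (connected_of_ediam_ne_top htop).exists_walk_length_eq_dist 0 x
    rw [← hp] at h2
    match x, p, h2 with
    | _, .nil, _ => exact Or.inl rfl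
    | x, .cons h .nil, _ => exact Or.inr (Or.inl (decide_eq_true h))
    | x, .cons (v := w) h (.cons h' .nil), _ =>
      exact Or.inr (Or.inr ⟨w, decide_eq_true h, (hc w x).1 h'⟩)
    | _, .cons _ (.cons _ (.cons _ _)), h2 =>
      simp only [Walk.length_cons] at h2
      omega) with ⟨x, y, hx, hy, hxy⟩ | h5
  · have h3 : G.IsNClique 3 {0, x, y} := is3Clique_triple_iff.2
      ⟨of_decide_eq_true hx, of_decide_eq_true hy, (hc x y).2 hxy⟩
    have := le_mp G _ (clique_pos G _ h3.isClique)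
    rw [h3.card_eq] at this
    omega
  · have h10 : ∀ x, c (x - 10) = c x := fun x => by
      rw [← h5 x, ← h5 (x - 5), sub_sub]
      rfl
    have h0 : ∀ a ∈ ({0, 5, 10} : Finset (ZMod 15)), ∀ w, c (w - a) = c w := by
      intro a ha w
      simp only [Finset.mem_insert, Finset.mem_singleton] at ha
      rcases ha with rfl | rfl | rfl
      exacts [by rw [sub_zero], h5 w, h10 w]
    have := le_mp G {0, 5, 10} (twin_pos G _ fun a ha b hb w hw => by
      rw [hc, h0 _ hb, ← h0 _ ha, ← hc]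
      exact hw)
    rw [show ({0, 5, 10} : Finset (ZMod 15)).card = 3 by decide] at this
    omega

end Pool.Agent.Results.MP_1f00fa_co.Fifteen
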